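import Pool.Agent.Helper99.BK.Stmts

/-!
# M2: a lower bound for a linear form in two logarithms, on a point set
-/

set_option autoImplicit false

namespace Pool.Helper99.BK

open NumberField

theorem m2_fact (N : ℕ) (hN : 1 ≤ N) : ((N.factorial : ℕ) : ℝ) ≤ Real.exp (N * Real.log N) := by
  have h1 : ((N.factorial : ℕ) : ℝ) ≤ (N : ℝ) ^ N := by
    exact_mod_cast Nat.factorial_le_pow N
  have hpos : (0 : ℝ) < N := by exact_mod_cast hN
  have h2 : (N : ℝ) ^ N = Real.exp (N * Real.log N) := by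
    rw [mul_comm, Real.exp_mul, Real.exp_log hpos, Real.rpow_natCast]
  rw [← h2]
  exact h1

theorem m2_log (x : ℝ) (hx : 1 ≤ x) : Real.log x ≤ 2 * Real.sqrt x := by
  have h0 : 0 < Real.sqrt x := Real.sqrt_pos.2 (by linarith)
  have h1 : Real.log x = 2 * Real.log (Real.sqrt x) := by
    conv_lhs => rw [← Real.sq_sqrt (show (0 : ℝ) ≤ x by linarith)]
    rw [Real.log_pow]
    norm_num
  have h2 := Real.log_le_sub_one_of_pos h0
  rw [h1]
  linarith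

/-- the numerical contradiction -/
theorem m2_num (D : ℕ) (K Lc N : ℝ) (U ℓ : ℝ) (hU : 1 ≤ U) (hℓ : 1 ≤ ℓ) (hN : N = K * Lc)
    (hK : (64 * (2 * D + 6)) ^ 2 * U ≤ K) (hL : 64 * (D + 3) * ℓ ≤ Lc) :
    N + N * Real.log N + N * (3 * ℓ * K + 3 * Lc * (U + 1)) + (1 - N ^ 2 / 16) +
      D * (U * Lc * N) + D * (N * Real.log N + N * (K * ℓ + U * Lc)) < 0 := by
  have hD : (0 : ℝ) ≤ D := Nat.cast_nonneg D
  have hK0 : (64 * (2 * (D : ℝ) + 6)) ^ 2 ≤ K := by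
    have : (64 * (2 * (D : ℝ) + 6)) ^ 2 * 1 ≤ (64 * (2 * (D : ℝ) + 6)) ^ 2 * U :=
      mul_le_mul_of_nonneg_left hU (sq_nonneg _)
    linarith
  have hL0 : (1 : ℝ) ≤ Lc := by nlinarith
  have hK1 : (1 : ℝ) ≤ K := by nlinarith
  have hKN : K ≤ N := by rw [hN]; nlinarith
  have hN1 : (1 : ℝ) ≤ N := hK1.trans hKN
  -- square root
  have hs : 64 * (2 * (D : ℝ) + 6) ≤ Real.sqrt N := by
    apply Real.le_sqrt_of_sq_le
    linarith
  have hsq : Real.sqrt N * Real.sqrt N = N := Real.mul_self_sqrt (by linarith)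
  have hlog := m2_log N hN1
  -- the two main terms
  have h1 : (3 + D) * (ℓ * K) ≤ N / 64 := by
    have : 64 * (D + 3) * ℓ * K ≤ Lc * K := mul_le_mul_of_nonneg_right hL (by linarith)
    rw [hN]
    linarith
  have h2 : (6 + 2 * D) * (U * Lc) ≤ N / 64 := by
    have h3 : 64 * (2 * (D : ℝ) + 6) * U ≤ K := by
      have : 64 * (2 * (D : ℝ) + 6) * 1 ≤ 64 * (2 * (D : ℝ) + 6) * (64 * (2 * (D : ℝ) + 6)) :=
        mul_le_mul_of_nonneg_left (by linarith) (by linarith)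
      have h4 : 64 * (2 * (D : ℝ) + 6) * U ≤ (64 * (2 * (D : ℝ) + 6)) ^ 2 * U :=
        mul_le_mul_of_nonneg_right (by nlinarith) (by linarith)
      linarith
    have : 64 * (2 * (D : ℝ) + 6) * U * Lc ≤ K * Lc := mul_le_mul_of_nonneg_right h3 (by linarith)
    rw [hN]
    linarith
  have hs1 : (1 : ℝ) ≤ Real.sqrt N := by linarith
  have h5 : (2 * (D : ℝ) + 6) * Real.sqrt N ≤ N / 32 := by
    have : 64 * (2 * (D : ℝ) + 6) * Real.sqrt N ≤ Real.sqrt N * Real.sqrt N :=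
      mul_le_mul_of_nonneg_right hs (by linarith)
    have h6 : 0 ≤ (2 * (D : ℝ) + 6) * Real.sqrt N := by positivity
    rw [hsq] at this
    linarith
  have h7 : (1 + D) * Real.log N ≤ (1 + D) * (2 * Real.sqrt N) :=
    mul_le_mul_of_nonneg_left hlog (by linarith)
  have hUL : Lc ≤ U * Lc := by nlinarith
  have hbr : 1 + (1 + D) * Real.log N + (3 + D) * (ℓ * K) + 3 * Lc + (3 + 2 * D) * (U * Lc) - N / 16 ≤
      -3 := by
    have h8 : 3 * Lc + (3 + 2 * D) * (U * Lc) ≤ (6 + 2 * D) * (U * Lc) := by linarith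
    have h9 : (1 + D) * (2 * Real.sqrt N) = (2 * (D : ℝ) + 6) * Real.sqrt N - 4 * Real.sqrt N := by
      ring
    linarith
  have hfin : N * (1 + (1 + D) * Real.log N + (3 + D) * (ℓ * K) + 3 * Lc + (3 + 2 * D) * (U * Lc) -
      N / 16) ≤ N * (-3) := mul_le_mul_of_nonneg_left hbr (by linarith)
  have hid : N + N * Real.log N + N * (3 * ℓ * K + 3 * Lc * (U + 1)) + (1 - N ^ 2 / 16) +
      D * (U * Lc * N) + D * (N * Real.log N + N * (K * ℓ + U * Lc)) =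
      1 + N * (1 + (1 + D) * Real.log N + (3 + D) * (ℓ * K) + 3 * Lc + (3 + 2 * D) * (U * Lc) -
      N / 16) := by ring
  rw [hid]
  linarith

/-- the analytic and the arithmetic bound contradict each other -/
theorem m2_contra (D f K Lc : ℕ) (U ℓ Z w : ℝ) (hf : f ≤ D) (hU : 1 ≤ U) (hℓ : 1 ≤ ℓ) (hZ : 1 ≤ Z)
    (hZℓ : Real.log Z ≤ ℓ)
    (hK : (64 * (2 * D + 6)) ^ 2 * U ≤ (K : ℝ)) (hL : 64 * (D + 3) * ℓ ≤ (Lc : ℝ))
    (h1 : w ≤ 2 ^ (K * Lc) * (((K * Lc).factorial : ℝ) *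
        ((3 * Z) ^ K * Real.exp (3 * Lc * (U + 1))) ^ (K * Lc)) *
        Real.exp (1 - ((K * Lc : ℕ) : ℝ) ^ 2 / 16))
    (h2 : 1 ≤ w * (((Real.exp (U * Lc) ^ (K * Lc)) ^ f) *
      (((K * Lc).factorial : ℝ) * (Z ^ K * Real.exp (U * Lc)) ^ (K * Lc)) ^ (f - 1))) : False := by
  have hD : (0 : ℝ) ≤ D := Nat.cast_nonneg D
  have hL0 : (1 : ℝ) ≤ Lc := by nlinarith
  have hK1 : (1 : ℝ) ≤ K := by
    have : (64 * (2 * (D : ℝ) + 6)) ^ 2 * 1 ≤ (64 * (2 * (D : ℝ) + 6)) ^ 2 * U :=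
      mul_le_mul_of_nonneg_left hU (sq_nonneg _)
    nlinarith
  have hLn : 1 ≤ Lc := by exact_mod_cast hL0
  have hKn : 1 ≤ K := by exact_mod_cast hK1
  set N : ℕ := K * Lc with hN
  have hNn : 1 ≤ N := Nat.mul_pos hKn hLn
  have hN1 : (1 : ℝ) ≤ (N : ℝ) := by exact_mod_cast hNn
  have hlogN : 0 ≤ Real.log (N : ℝ) := Real.log_nonneg hN1
  have hfact := m2_fact N hNn
  have hZe : Z ≤ Real.exp ℓ := by
    rw [← Real.log_le_iff_le_exp (by linarith)]
    exact hZℓ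
  have h3 : (3 : ℝ) ≤ Real.exp (2 * ℓ) := by
    have := Real.add_one_le_exp (2 * ℓ)
    linarith
  -- factors
  have e1 : (2 : ℝ) ^ N ≤ Real.exp N := by
    have h2e : (2 : ℝ) ≤ Real.exp 1 := by
      have := Real.add_one_le_exp (1 : ℝ)
      linarith
    calc (2 : ℝ) ^ N ≤ Real.exp 1 ^ N := pow_le_pow_left₀ (by norm_num) h2e N
      _ = Real.exp N := by rw [← Real.exp_nat_mul, mul_one]
  have e2 : (3 * Z) ^ K * Real.exp (3 * Lc * (U + 1)) ≤
      Real.exp (3 * ℓ * K + 3 * Lc * (U + 1)) := by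
    rw [Real.exp_add]
    refine mul_le_mul_of_nonneg_right ?_ (Real.exp_nonneg _)
    calc (3 * Z) ^ K ≤ (Real.exp (2 * ℓ) * Real.exp ℓ) ^ K :=
          pow_le_pow_left₀ (by linarith) (mul_le_mul h3 hZe (by linarith) (Real.exp_nonneg _)) K
      _ = Real.exp (3 * ℓ * K) := by
          rw [← Real.exp_add, ← Real.exp_nat_mul]
          congr 1
          ring
  have e3 : ((3 * Z) ^ K * Real.exp (3 * Lc * (U + 1))) ^ N ≤
      Real.exp (N * (3 * ℓ * K + 3 * Lc * (U + 1))) := by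
    rw [Real.exp_nat_mul]
    exact pow_le_pow_left₀ (by positivity) e2 N
  have e4 : Z ^ K * Real.exp (U * Lc) ≤ Real.exp (K * ℓ + U * Lc) := by
    rw [Real.exp_add]
    refine mul_le_mul_of_nonneg_right ?_ (Real.exp_nonneg _)
    rw [Real.exp_nat_mul]
    exact pow_le_pow_left₀ (by linarith) hZe K
  have e5 : (Z ^ K * Real.exp (U * Lc)) ^ N ≤ Real.exp (N * (K * ℓ + U * Lc)) := by
    rw [Real.exp_nat_mul]
    exact pow_le_pow_left₀ (by positivity) e4 N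
  have hq0 : 0 ≤ (N : ℝ) * Real.log N + N * (K * ℓ + U * Lc) := by positivity
  have e6 : (((N.factorial : ℕ) : ℝ) * (Z ^ K * Real.exp (U * Lc)) ^ N) ^ (f - 1) ≤
      Real.exp (D * (N * Real.log N + N * (K * ℓ + U * Lc))) := by
    have h4 : ((N.factorial : ℕ) : ℝ) * (Z ^ K * Real.exp (U * Lc)) ^ N ≤
        Real.exp (N * Real.log N + N * (K * ℓ + U * Lc)) := by
      rw [Real.exp_add]
      exact mul_le_mul hfact e5 (by positivity) (Real.exp_nonneg _)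
    calc (((N.factorial : ℕ) : ℝ) * (Z ^ K * Real.exp (U * Lc)) ^ N) ^ (f - 1)
        ≤ (Real.exp (N * Real.log N + N * (K * ℓ + U * Lc))) ^ (f - 1) :=
          pow_le_pow_left₀ (by positivity) h4 _
      _ = Real.exp (((f - 1 : ℕ) : ℝ) * (N * Real.log N + N * (K * ℓ + U * Lc))) := by
          rw [Real.exp_nat_mul]
      _ ≤ Real.exp (D * (N * Real.log N + N * (K * ℓ + U * Lc))) := by
          apply Real.exp_le_exp.2
          refine mul_le_mul_of_nonneg_right ?_ hq0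
          have : f - 1 ≤ D := by omega
          exact_mod_cast this
  have e7 : (Real.exp (U * Lc) ^ N) ^ f ≤ Real.exp (D * (U * Lc * N)) := by
    rw [← Real.exp_nat_mul, ← Real.exp_nat_mul]
    apply Real.exp_le_exp.2
    have h4 : (f : ℝ) ≤ D := by exact_mod_cast hf
    have h5 : (0 : ℝ) ≤ (N : ℝ) * (U * Lc) := by positivity
    calc (f : ℝ) * ((N : ℝ) * (U * Lc)) ≤ D * ((N : ℝ) * (U * Lc)) :=
          mul_le_mul_of_nonneg_right h4 h5
      _ = D * (U * Lc * N) := by ring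
  have hw : w ≤ Real.exp (N + N * Real.log N + N * (3 * ℓ * K + 3 * Lc * (U + 1)) +
      (1 - (N : ℝ) ^ 2 / 16)) := by
    refine h1.trans ?_
    have h4 : Real.exp (N + N * Real.log N + N * (3 * ℓ * K + 3 * Lc * (U + 1)) +
        (1 - (N : ℝ) ^ 2 / 16)) = Real.exp N * (Real.exp (N * Real.log N) *
        Real.exp (N * (3 * ℓ * K + 3 * Lc * (U + 1)))) * Real.exp (1 - (N : ℝ) ^ 2 / 16) := by
      rw [← Real.exp_add, ← Real.exp_add, ← Real.exp_add]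
      congr 1
      ring
    rw [h4]
    refine mul_le_mul_of_nonneg_right ?_ (Real.exp_nonneg _)
    refine mul_le_mul e1 ?_ (by positivity) (Real.exp_nonneg _)
    exact mul_le_mul hfact e3 (by positivity) (Real.exp_nonneg _)
  have hall : (1 : ℝ) ≤ Real.exp (N + N * Real.log N + N * (3 * ℓ * K + 3 * Lc * (U + 1)) +
      (1 - (N : ℝ) ^ 2 / 16) + D * (U * Lc * N) + D * (N * Real.log N + N * (K * ℓ + U * Lc))) := by
    refine h2.trans ?_
    rw [add_assoc _ ((D : ℝ) * (U * Lc * N)), Real.exp_add, Real.exp_add (D * (U * Lc * N))]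
    refine mul_le_mul hw ?_ (by positivity) (Real.exp_nonneg _)
    exact mul_le_mul e7 e6 (by positivity) (Real.exp_nonneg _)
  have hlt := m2_num D K Lc N U ℓ hU hℓ (by rw [hN]; push_cast; ring) hK hL
  have h9 := Real.exp_lt_exp.2 hlt
  rw [Real.exp_zero] at h9
  linarith

/-- products of powers are exponentials -/
theorem m2_exp {L : Type} [Field L] [NumberField L] (φ : L →+* ℂ) (γ : Fin 2 → L) (lam : Fin 2 → ℂ)
    (he : ∀ i, Complex.exp (lam i) = φ (γ i)) (p : Fin 2 → ℤ) :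
    φ (∏ i, γ i ^ (p i)) = Complex.exp (((p 0 : ℤ) : ℂ) * lam 0 + ((p 1 : ℤ) : ℂ) * lam 1) := by
  rw [Fin.prod_univ_two, map_mul, map_zpow₀, map_zpow₀, ← he 0, ← he 1, Complex.exp_add,
    ← Complex.exp_int_mul, ← Complex.exp_int_mul]

theorem st_M2 (hZE1 : ST_ZE1) (hMINOR : ST_MINOR) (hAR : ST_AR) (hAN10 : ST_AN10) : ST_M2 := by
  intro D
  -- constants
  set c1 : ℝ := 64 * (D + 3) with hc1
  set c2 : ℝ := (64 * (2 * D + 6)) ^ 2 with hc2
  have hD : (0 : ℝ) ≤ D := Nat.cast_nonneg D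
  have hc1' : (1 : ℝ) ≤ c1 := by rw [hc1]; linarith
  have hc2' : (1 : ℝ) ≤ c2 := by rw [hc2]; nlinarith
  refine ⟨4 * c1 + 2 + 4 * c1 * c2, by nlinarith, ?_⟩
  intro L _ _ hfin φ γ lam S U ℓ Z hU hℓ hZ hZℓ hUℓ hγ he hlog hconj hden hcoo hinj hcard himg
  set C : ℝ := 4 * c1 + 2 + 4 * c1 * c2 with hC
  by_contra hcon
  push Not at hcon
  set Lc : ℕ := ⌈c1 * ℓ⌉₊ with hLc
  set K : ℕ := ⌈c2 * U⌉₊ with hK
  have hL1 : c1 * ℓ ≤ (Lc : ℝ) := Nat.le_ceil _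
  have hK1 : c2 * U ≤ (K : ℝ) := Nat.le_ceil _
  have hc1ℓ : 1 ≤ c1 * ℓ := by nlinarith
  have hc2U : 1 ≤ c2 * U := by nlinarith
  have hL2 : (Lc : ℝ) ≤ 2 * (c1 * ℓ) := by
    have := Nat.ceil_lt_add_one (show 0 ≤ c1 * ℓ by linarith)
    rw [← hLc] at this
    linarith
  have hK2 : (K : ℝ) ≤ 2 * (c2 * U) := by
    have := Nat.ceil_lt_add_one (show 0 ≤ c2 * U by linarith)
    rw [← hK] at this
    linarith
  have hLr : (1 : ℝ) ≤ Lc := hc1ℓ.trans hL1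
  have hKr : (1 : ℝ) ≤ K := hc2U.trans hK1
  have hLn : 1 ≤ Lc := by exact_mod_cast hLr
  have hKn : 1 ≤ K := by exact_mod_cast hKr
  have hUℓ1 : 1 ≤ U * ℓ := by nlinarith
  have hℓU : ℓ ≤ U * ℓ := by nlinarith
  have hN2 : ((K * Lc : ℕ) : ℝ) ≤ 4 * c1 * c2 * (U * ℓ) := by
    push_cast
    calc (K : ℝ) * Lc ≤ (2 * (c2 * U)) * (2 * (c1 * ℓ)) :=
          mul_le_mul hK2 hL2 (by linarith) (by linarith)
      _ = 4 * c1 * c2 * (U * ℓ) := by ring
  have hCU : C * U * ℓ = C * (U * ℓ) := by ring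
  have hc12 : 0 ≤ c1 * c2 := by positivity
  have hZe : Z ≤ Real.exp ℓ := by
    rw [← Real.log_le_iff_le_exp (by linarith)]
    exact hZℓ
  have hl0 : ‖lam 0‖ < Real.exp (-(C * (U * ℓ))) := by
    rw [← hCU]
    exact hcon
  -- smallness of `lam 0`
  have hZl : Z * ‖lam 0‖ ≤ 1 := by
    have h1 : Z * ‖lam 0‖ ≤ Real.exp ℓ * Real.exp (-(C * (U * ℓ))) :=
      mul_le_mul hZe hl0.le (norm_nonneg _) (Real.exp_nonneg _)
    refine h1.trans ?_
    rw [← Real.exp_add, ← Real.exp_zero]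
    apply Real.exp_le_exp.2
    have h2 : 1 * (U * ℓ) ≤ C * (U * ℓ) :=
      mul_le_mul_of_nonneg_right (by rw [hC]; linarith) (by linarith)
    linarith
  have hsmall : 2 * Lc * Z * ‖lam 0‖ ≤ Real.exp (-((K * Lc : ℕ) : ℝ)) := by
    have h2L : (2 : ℝ) * Lc ≤ Real.exp (4 * c1 * (U * ℓ)) := by
      have h1 := Real.add_one_le_exp (4 * c1 * (U * ℓ))
      have h2 : c1 * ℓ ≤ c1 * (U * ℓ) := mul_le_mul_of_nonneg_left hℓU (by linarith)
      linarith
    have h3 : Z ≤ Real.exp (U * ℓ) := hZe.trans (Real.exp_le_exp.2 hℓU)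
    calc 2 * Lc * Z * ‖lam 0‖
        ≤ Real.exp (4 * c1 * (U * ℓ)) * Real.exp (U * ℓ) * Real.exp (-(C * (U * ℓ))) := by
          refine mul_le_mul (mul_le_mul h2L h3 (by linarith) (Real.exp_nonneg _)) hl0.le
            (norm_nonneg _) (by positivity)
      _ = Real.exp (4 * c1 * (U * ℓ) + U * ℓ + -(C * (U * ℓ))) := by
          rw [Real.exp_add, Real.exp_add]
      _ ≤ Real.exp (-((K * Lc : ℕ) : ℝ)) := by
          apply Real.exp_le_exp.2
          have h4 : C * (U * ℓ) = 4 * c1 * (U * ℓ) + 2 * (U * ℓ) + 4 * c1 * c2 * (U * ℓ) := by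
            rw [hC]; ring
          linarith
  -- zero estimate
  let ζ : (Fin 2 → ℤ) →+ ℂ := (Int.castAddHom ℂ).comp (Pi.evalAddMonoidHom (fun _ : Fin 2 => ℤ) 1)
  have hζ : ∀ p : Fin 2 → ℤ, ζ p = ((p 1 : ℤ) : ℂ) := fun p => rfl
  let η : (Fin 2 → ℤ) → ℂ := fun p => φ (∏ i, γ i ^ (p i))
  have hηexp : ∀ p, η p = Complex.exp (((p 0 : ℤ) : ℂ) * lam 0 + ((p 1 : ℤ) : ℂ) * lam 1) :=
    m2_exp φ γ lam he
  have hη0 : ∀ p, η p ≠ 0 := fun p => by rw [hηexp]; exact Complex.exp_ne_zero _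
  have hηadd : ∀ p q, η (p + q) = η p * η q := by
    intro p q
    rw [hηexp, hηexp, hηexp, ← Complex.exp_add]
    congr 1
    simp only [Pi.add_apply]
    push_cast
    ring
  have hker : ∀ x : Fin K × Fin Lc → ℂ,
      (∀ r : {x // x ∈ S} × {x // x ∈ S}, ∑ j : Fin K × Fin Lc,
        (ζ (r.1.1 + r.2.1) ^ (j.1 : ℕ) * η (r.1.1 + r.2.1) ^ (j.2 : ℕ)) * x j = 0) → x = 0 := by
    intro x hx
    by_contra hx0
    have h1 := hZE1 (Fin 2 → ℤ) ζ η hη0 hηadd K Lc x hx0 S S (by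
      intro p hp q hq
      have := hx (⟨p, hp⟩, ⟨q, hq⟩)
      rw [← this]
      refine Finset.sum_congr rfl fun j _ => ?_
      rw [mul_comm])
    have h2 : Lc ≤ (S.image η).card := by
      have h3 : (Lc : ℝ) ≤ ((S.image η).card : ℝ) := by
        refine le_trans ?_ himg
        have h4 : 2 * c1 * ℓ ≤ C * ℓ := mul_le_mul_of_nonneg_right (by rw [hC]; linarith) (by linarith)
        linarith
      exact_mod_cast h3
    have h3 := h1 h2
    have h4 : (S.image ζ).card = S.card := by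
      apply Finset.card_image_of_injOn
      intro p hp q hq hpq
      have h5 : ((p 1 : ℤ) : ℂ) = ((q 1 : ℤ) : ℂ) := hpq
      exact hinj p hp q hq (by exact_mod_cast h5)
    rw [h4] at h3
    have h5 : (S.card : ℝ) ≤ ((K * Lc : ℕ) : ℝ) := by exact_mod_cast h3
    have h6 : C * (U * ℓ) = 4 * c1 * (U * ℓ) + 2 * (U * ℓ) + 4 * c1 * c2 * (U * ℓ) := by
      rw [hC]; ring
    have h7 : 0 ≤ 4 * c1 * (U * ℓ) := by positivity
    rw [hCU] at hcard
    linarith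
  obtain ⟨r, hr⟩ := hMINOR ℂ ({x // x ∈ S} × {x // x ∈ S}) (Fin K × Fin Lc)
    (fun r j => ζ (r.1.1 + r.2.1) ^ (j.1 : ℕ) * η (r.1.1 + r.2.1) ^ (j.2 : ℕ)) hker
  -- the rows
  let P : Fin K × Fin Lc → (Fin 2 → ℤ) := fun i => (r i).1.1 + (r i).2.1
  have hdetP : (Matrix.of (fun i j : Fin K × Fin Lc =>
      ζ (P i) ^ (j.1 : ℕ) * η (P i) ^ (j.2 : ℕ))).det ≠ 0 := hr
  let M : Matrix (Fin K × Fin Lc) (Fin K × Fin Lc) L :=
    Matrix.of fun i j => ((P i 1 : ℤ) : L) ^ (j.1 : ℕ) * (∏ a, γ a ^ (P i a)) ^ (j.2 : ℕ)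
  have hMφ : φ M.det = (Matrix.of (fun i j : Fin K × Fin Lc =>
      ζ (P i) ^ (j.1 : ℕ) * η (P i) ^ (j.2 : ℕ))).det := by
    rw [RingHom.map_det]
    congr 1
    ext i j
    simp only [M, RingHom.mapMatrix_apply, Matrix.map_apply, Matrix.of_apply, map_mul, map_pow,
      map_intCast, hζ]
    rfl
  have hMdet : M.det ≠ 0 := by
    intro h
    apply hdetP
    rw [← hMφ, h, map_zero]
  -- denominators
  have hdenP : ∀ i : Fin K × Fin Lc, ∃ n : ℕ, 0 < n ∧ (n : ℝ) ≤ Real.exp U ∧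
      IsIntegral ℤ ((n : L) * ∏ a, γ a ^ (P i a)) := fun i =>
    hden _ (r i).1.2 _ (r i).2.2
  choose n hn0 hnU hnI using hdenP
  have hAR1 := hAR L φ (Fin K × Fin Lc) M hMdet (fun i => n i ^ Lc)
    (fun i => pow_pos (hn0 i) Lc) (by
      intro i j
      have h1 : (((n i ^ Lc : ℕ) : L) * M i j) = ((P i 1 : ℤ) : L) ^ (j.1 : ℕ) *
          ((n i : L) ^ (Lc - (j.2 : ℕ)) * ((n i : L) * ∏ a, γ a ^ (P i a)) ^ (j.2 : ℕ)) := by
        simp only [M, Matrix.of_apply]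
        rw [mul_pow, ← mul_assoc ((n i : L) ^ (Lc - (j.2 : ℕ))), ← pow_add,
          Nat.sub_add_cancel j.2.2.le]
        push_cast
        ring
      rw [h1]
      refine IsIntegral.mul (IsIntegral.pow ?_ _) (IsIntegral.mul (IsIntegral.pow ?_ _)
        (IsIntegral.pow (hnI i) _))
      · exact isIntegral_algebraMap (x := (P i 1 : ℤ))
      · exact_mod_cast isIntegral_algebraMap (R := ℤ) (A := L) (x := (n i : ℤ)))
    (Real.exp (U * Lc)) (Z ^ K * Real.exp (U * Lc))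
    (by
      have h1 : (1 : ℝ) ≤ Z ^ K := one_le_pow₀ hZ
      have h2 : (1 : ℝ) ≤ Real.exp (U * Lc) := Real.one_le_exp (by positivity)
      nlinarith)
    (by
      intro τ i j
      have h1 : τ (M i j) = ((P i 1 : ℤ) : ℂ) ^ (j.1 : ℕ) *
          (τ (∏ a, γ a ^ (P i a))) ^ (j.2 : ℕ) := by
        simp only [M, Matrix.of_apply, map_mul, map_pow, map_intCast]
      rw [h1, norm_mul, norm_pow, norm_pow]
      have h2 : ‖((P i 1 : ℤ) : ℂ)‖ ≤ Z := by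
        rw [Complex.norm_intCast]
        exact hcoo _ (r i).1.2 _ (r i).2.2 1
      have h3 : ‖τ (∏ a, γ a ^ (P i a))‖ ≤ Real.exp U := hconj _ (r i).1.2 _ (r i).2.2 τ
      refine mul_le_mul ?_ ?_ (by positivity) (by positivity)
      · calc ‖((P i 1 : ℤ) : ℂ)‖ ^ (j.1 : ℕ) ≤ Z ^ (j.1 : ℕ) :=
              pow_le_pow_left₀ (norm_nonneg _) h2 _
          _ ≤ Z ^ K := pow_le_pow_right₀ hZ j.1.2.le
      · calc ‖τ (∏ a, γ a ^ (P i a))‖ ^ (j.2 : ℕ) ≤ (Real.exp U) ^ (j.2 : ℕ) :=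
              pow_le_pow_left₀ (norm_nonneg _) h3 _
          _ ≤ (Real.exp U) ^ Lc := pow_le_pow_right₀ (Real.one_le_exp (by linarith)) j.2.2.le
          _ = Real.exp (U * Lc) := by rw [← Real.exp_nat_mul, mul_comm])
    (by
      intro i
      push_cast
      calc (n i : ℝ) ^ Lc ≤ (Real.exp U) ^ Lc := pow_le_pow_left₀ (Nat.cast_nonneg _) (hnU i) _
        _ = Real.exp (U * Lc) := by rw [← Real.exp_nat_mul, mul_comm])
  rw [Fintype.card_prod, Fintype.card_fin, Fintype.card_fin] at hAR1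
  -- the analytic bound
  have hKL4 : 4 ≤ K * Lc := by
    have h1 : (64 : ℝ) ≤ Lc := by
      have : (64 : ℝ) * 1 ≤ c1 * ℓ :=
        mul_le_mul (by rw [hc1]; linarith) hℓ (by norm_num) (by linarith)
      linarith
    have h2 : 64 ≤ Lc := by exact_mod_cast h1
    nlinarith
  have hAN := hAN10 K Lc hKL4 (fun i => ((P i 1 : ℤ) : ℂ)) (fun i => ((P i 0 : ℤ) : ℂ)) (lam 1) (lam 0)
    Z (U + 1) hZ (by linarith)
    (by
      intro i
      rw [Complex.norm_intCast]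
      exact hcoo _ (r i).1.2 _ (r i).2.2 1)
    (by
      intro i
      rw [Complex.norm_intCast]
      exact hcoo _ (r i).1.2 _ (r i).2.2 0)
    (by
      intro i
      have h1 : ‖∑ a, (((P i) a : ℤ) : ℂ) * lam a‖ ≤ U := hlog _ (r i).1.2 _ (r i).2.2
      rw [Fin.sum_univ_two] at h1
      have h2 : ‖((P i 0 : ℤ) : ℂ) * lam 0‖ ≤ 1 := by
        rw [norm_mul, Complex.norm_intCast]
        refine le_trans (mul_le_mul_of_nonneg_right ?_ (norm_nonneg _)) hZl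
        exact hcoo _ (r i).1.2 _ (r i).2.2 0
      calc ‖((P i 1 : ℤ) : ℂ) * lam 1‖ = ‖(((P i 0 : ℤ) : ℂ) * lam 0 + ((P i 1 : ℤ) : ℂ) * lam 1) -
            ((P i 0 : ℤ) : ℂ) * lam 0‖ := by congr 1; ring
        _ ≤ ‖((P i 0 : ℤ) : ℂ) * lam 0 + ((P i 1 : ℤ) : ℂ) * lam 1‖ + ‖((P i 0 : ℤ) : ℂ) * lam 0‖ :=
            norm_sub_le _ _
        _ ≤ U + 1 := add_le_add h1 h2)
    hsmall
  have hmat : (Matrix.of (fun p j : Fin K × Fin Lc => ((P p 1 : ℤ) : ℂ) ^ (j.1 : ℕ) *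
          Complex.exp (((j.2 : ℕ) : ℂ) * (((P p 0 : ℤ) : ℂ) * lam 0 + ((P p 1 : ℤ) : ℂ) * lam 1)))).det =
      φ M.det := by
    rw [hMφ]
    congr 1
    ext i j
    simp only [Matrix.of_apply, hζ]
    rw [hηexp, ← Complex.exp_nat_mul]
  rw [hmat] at hAN
  exact m2_contra D (Module.finrank ℚ L) K Lc U ℓ Z ‖φ M.det‖ hfin hU hℓ hZ hZℓ hK1 hL1 hAN hAR1

end Pool.Helper99.BK
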